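import Mathlib

/-!
# A checker for certificates about quadruples of seven points

`u i j` is the direction of the line through the points `i` and `j` (an element of an abelian
group). A code `x` with the octal digits `a, b, c, d` stands for the relation
`u a c + u a d = u b c + u b d`.
-/

open Finset

namespace Pool.Agent.Lib.MP_75c8a4_co.Seven

/-- The relation between the directions in the four points `a, b, c, d` which expresses that the
triangles `abc` and `abd` have the same circumradius. -/
def Rel {A : Type*} [AddCommGroup A] (u : ℕ → ℕ → A) (a b c d : ℕ) : Prop :=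
  u a c + u a d = u b c + u b d

/-- Seven points in general position such that every quadruple satisfies one of its six
relations. -/
structure Cfg {A : Type*} [AddCommGroup A] (u : ℕ → ℕ → A) : Prop where
  symm : ∀ i j, u i j = u j i
  col : ∀ a b c, a < 7 → b < 7 → c < 7 → a ≠ b → a ≠ c → b ≠ c → u a b ≠ u a c
  cyc : ∀ a b c d, a < 7 → b < 7 → c < 7 → d < 7 → a ≠ b → a ≠ c → a ≠ d → b ≠ c → b ≠ d → c ≠ d →
    u a b + u c d ≠ u a c + u b d
  cover : ∀ a b c d, a < 7 → b < 7 → c < 7 → d < 7 → a ≠ b → a ≠ c → a ≠ d → b ≠ c → b ≠ d →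
    c ≠ d → Rel u a b c d ∨ Rel u a c b d ∨ Rel u a d b c ∨ Rel u b c a d ∨ Rel u b d a c ∨
      Rel u c d a b

/-! ### Digits -/

/-- Index of an unordered pair. -/
def idx (i j : ℕ) : ℕ := bif Nat.blt i j then 8 * i + j else 8 * j + i

/-- The power of the base which stands for an unordered pair. -/
def pw (i j : ℕ) : ℕ := 256 ^ idx i j

/-- Left side of the relation with code `x`. -/
def posOf (x : ℕ) : ℕ := pw (x % 8) (x / 64 % 8) + pw (x % 8) (x / 512 % 8)

/-- Right side of the relation with code `x`. -/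
def negOf (x : ℕ) : ℕ := pw (x / 8 % 8) (x / 64 % 8) + pw (x / 8 % 8) (x / 512 % 8)

/-- Code of a relation. -/
def mk (a b c d : ℕ) : ℕ := a + 8 * b + 64 * c + 512 * d

/-- Is the difference of the two sides the combination, with the digits of `s` as coefficients, of
the relations in the list? -/
def chk : List ℕ → ℕ → ℕ → ℕ → ℕ → Bool
  | [], _, P, N, W => Nat.beq P N && Nat.ble W 100
  | e :: l, s, P, N, W =>
    bif Nat.beq s 0 then Nat.beq P N && Nat.ble W 100
    else bif Nat.ble (s % 8) 3 then
      chk l (s / 8) (P + s % 8 * posOf e) (N + s % 8 * negOf e) (W + s % 8)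
    else chk l (s / 8) (P + (s % 8 - 4) * negOf e) (N + (s % 8 - 4) * posOf e) (W + (s % 8 - 4))

/-- Four different numbers less than seven. -/
def dist4 (a b c d : ℕ) : Bool :=
  Nat.blt a 7 && Nat.blt b 7 && Nat.blt c 7 && Nat.blt d 7 && !Nat.beq a b && !Nat.beq a c &&
    !Nat.beq a d && !Nat.beq b c && !Nat.beq b d && !Nat.beq c d

/-- Three different numbers less than seven. -/
def dist3 (a b c : ℕ) : Bool :=
  Nat.blt a 7 && Nat.blt b 7 && Nat.blt c 7 && !Nat.beq a b && !Nat.beq a c && !Nat.beq b c

/-- Close a branch: the relations imply a degenerate one. -/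
def closeLin (ctx : List ℕ) (t s : ℕ) : Bool :=
  bif Nat.beq (t / 4096 % 2) 0 then
    dist3 (t % 8) (t / 8 % 8) (t / 64 % 8) &&
      chk ctx s (pw (t % 8) (t / 64 % 8)) (pw (t % 8) (t / 8 % 8)) 0
  else
    dist4 (t % 8) (t / 8 % 8) (t / 64 % 8) (t / 512 % 8) &&
      chk ctx s (pw (t % 8) (t / 64 % 8) + pw (t / 8 % 8) (t / 512 % 8))
        (pw (t % 8) (t / 8 % 8) + pw (t / 64 % 8) (t / 512 % 8)) 0

/-- The image of `i` under the permutation with code `σ`. -/
def app (σ i : ℕ) : ℕ := σ / 8 ^ i % 8

/-- Is `σ` the code of a permutation of `0, ..., 6`? -/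
def isPerm (σ : ℕ) : Bool :=
  Nat.beq (2 ^ app σ 0 ||| 2 ^ app σ 1 ||| 2 ^ app σ 2 ||| 2 ^ app σ 3 ||| 2 ^ app σ 4 |||
    2 ^ app σ 5 ||| 2 ^ app σ 6) 127

/-- Code with ordered pairs. -/
def canon (a b c d : ℕ) : ℕ :=
  (bif Nat.blt a b then a + 8 * b else b + 8 * a) +
    64 * (bif Nat.blt c d then c + 8 * d else d + 8 * c)

/-- Image of a code under a permutation. -/
def permCode (σ x : ℕ) : ℕ :=
  canon (app σ (x % 8)) (app σ (x / 8 % 8)) (app σ (x / 64 % 8)) (app σ (x / 512 % 8))

/-- Membership. -/
def elem (x : ℕ) : List ℕ → Bool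
  | [] => false
  | y :: l => Nat.beq x y || elem x l

/-- All images of the codes are in the context. -/
def allIn (σ : ℕ) (ctx : List ℕ) : List ℕ → Bool
  | [] => true
  | x :: l => elem (permCode σ x) ctx && allIn σ ctx l

/-- The `n`-th forbidden pattern, applied with the permutation `σ`. -/
def cite (σ : ℕ) (ctx : List ℕ) : List (List ℕ) → ℕ → Bool
  | [], _ => false
  | p :: ps, n => bif Nat.beq n 0 then allIn σ ctx p else cite σ ctx ps (n - 1)

/-- The checker: a list of instructions treats a stack of contexts. -/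
def run (lems : List (List ℕ)) : List ℕ → List (List ℕ) → Bool
  | [], [] => true
  | [], _ :: _ => false
  | _ :: _, [] => false
  | i :: is, ctx :: st =>
    bif Nat.beq (i % 4) 0 then
      -- branch on a quadruple
      dist4 (i / 4 % 8) (i / 32 % 8) (i / 256 % 8) (i / 2048 % 8) &&
      run lems is
        ((mk (i / 4 % 8) (i / 32 % 8) (i / 256 % 8) (i / 2048 % 8) :: ctx) ::
         (mk (i / 4 % 8) (i / 256 % 8) (i / 32 % 8) (i / 2048 % 8) :: ctx) ::
         (mk (i / 4 % 8) (i / 2048 % 8) (i / 32 % 8) (i / 256 % 8) :: ctx) ::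
         (mk (i / 32 % 8) (i / 256 % 8) (i / 4 % 8) (i / 2048 % 8) :: ctx) ::
         (mk (i / 32 % 8) (i / 2048 % 8) (i / 4 % 8) (i / 256 % 8) :: ctx) ::
         (mk (i / 256 % 8) (i / 2048 % 8) (i / 4 % 8) (i / 32 % 8) :: ctx) :: st)
    else bif Nat.beq (i % 4) 1 then
      -- a degenerate relation
      closeLin ctx (i / 4 % 8192) (i / 32768) && run lems is st
    else bif Nat.beq (i % 4) 2 then
      -- derive a relation
      chk ctx (i / 16384) (negOf (i / 4 % 4096)) (posOf (i / 4 % 4096)) 0 &&
        run lems is ((i / 4 % 4096 :: ctx) :: st)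
    else
      -- an earlier pattern
      isPerm (i / 4 % 2097152) && cite (i / 4 % 2097152) ctx lems (i / 8388608) && run lems is st

/-- Check a list of patterns with their certificates. -/
def runAll : List (List ℕ × List ℕ) → List (List ℕ) → Bool
  | [], _ => true
  | p :: rest, lems => run lems p.2 [p.1] && runAll rest (p.1 :: lems)

end Pool.Agent.Lib.MP_75c8a4_co.Seven
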