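import Pool.Agent.Lib.MP_75c8a4_co.Defs
import Pool.Agent.Lib.MP_75c8a4_co.Seven.Checker

/-!
# Directions of lines and equal circumradii
-/

open Finset ComplexConjugate

namespace Pool.Agent.Lib.MP_75c8a4_co.Seven

/-- The (doubled) direction of the line through `z` and `w`. -/
noncomputable def dir (z w : ℂ) : ℂ := (z - w) / conj (z - w)

lemma dir_ne_zero {z w : ℂ} (h : z ≠ w) : dir z w ≠ 0 := by
  unfold dir
  have h1 : z - w ≠ 0 := sub_ne_zero.2 h
  have h2 : conj (z - w) ≠ 0 := (map_ne_zero _).2 h1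
  exact div_ne_zero h1 h2

lemma dir_comm (z w : ℂ) : dir z w = dir w z := by
  unfold dir
  have h : w - z = -(z - w) := by ring
  rw [h, map_neg, neg_div_neg_eq]

lemma norm_sq_eq {z O : ℂ} {r : ℝ} (h : dist z O = r) : (z - O) * conj (z - O) = (r : ℂ) ^ 2 := by
  rw [Complex.mul_conj, Complex.normSq_eq_norm_sq, ← h, Complex.dist_eq]
  push_cast
  rfl

/-- Directions of the chords of a circle. -/
lemma dir_circle {z w O : ℂ} {r : ℝ} (hz : dist z O = r) (hw : dist w O = r) (h : z ≠ w) :
    dir z w * (r : ℂ) ^ 2 = -((z - O) * (w - O)) := by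
  have h1 := norm_sq_eq hz
  have h2 := norm_sq_eq hw
  have h3 : conj (z - w) ≠ 0 := (map_ne_zero _).2 (sub_ne_zero.2 h)
  unfold dir
  rw [div_mul_eq_mul_div, div_eq_iff h3]
  have h4 : conj (z - w) = conj (z - O) - conj (w - O) := by
    rw [← map_sub]; congr 1; ring
  rw [h4]
  linear_combination (w - O) * h1 - (z - O) * h2

lemma radius_ne_zero {z w O : ℂ} {r : ℝ} (hz : dist z O = r) (hw : dist w O = r) (h : z ≠ w) :
    (r : ℂ) ^ 2 ≠ 0 := by
  intro h0
  have hr : r = 0 := by
    have := pow_eq_zero_iff (two_ne_zero) |>.1 h0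
    exact_mod_cast this
  rw [hr] at hz hw
  exact h ((dist_eq_zero.1 hz).trans (dist_eq_zero.1 hw).symm)

/-- Two circles of the same radius through `a` and `b` with different centres, one through `c`, the
other one through `d`. -/
lemma rel_of_radius {a b c d O O' : ℂ} {r : ℝ} (hab : a ≠ b) (hac : a ≠ c) (had : a ≠ d)
    (hbc : b ≠ c) (hbd : b ≠ d) (hO : O ≠ O') (ha : dist a O = r) (hb : dist b O = r)
    (hc : dist c O = r) (ha' : dist a O' = r) (hb' : dist b O' = r) (hd : dist d O' = r) :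
    dir a c * dir a d = dir b c * dir b d := by
  have hr := radius_ne_zero ha hb hab
  have e1 := dir_circle ha hb hab
  have e2 := dir_circle ha' hb' hab
  have e3 : (O - O') * (a + b - O - O') = 0 := by
    linear_combination e2 - e1
  have e4 : a + b - O - O' = 0 := by
    rcases mul_eq_zero.1 e3 with h | h
    · exact absurd (sub_eq_zero.1 h) hO
    · exact h
  have f1 := dir_circle ha hc hac
  have f2 := dir_circle ha' hd had
  have f3 := dir_circle hb hc hbc
  have f4 := dir_circle hb' hd hbd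
  have hr2 : (r : ℂ) ^ 2 * (r : ℂ) ^ 2 ≠ 0 := mul_ne_zero hr hr
  apply mul_right_cancel₀ hr2
  have g1 : dir a c * dir a d * ((r : ℂ) ^ 2 * (r : ℂ) ^ 2) =
      (dir a c * (r : ℂ) ^ 2) * (dir a d * (r : ℂ) ^ 2) := by ring
  have g2 : dir b c * dir b d * ((r : ℂ) ^ 2 * (r : ℂ) ^ 2) =
      (dir b c * (r : ℂ) ^ 2) * (dir b d * (r : ℂ) ^ 2) := by ring
  rw [g1, g2, f1, f2, f3, f4]
  linear_combination ((c - O) * (d - O') * (a - b)) * e4

/-- If the directions of `ab` and `ac` agree, then `c` is on the line `ab`. -/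
lemma real_of_dir {a b c : ℂ} (hab : a ≠ b) (hac : a ≠ c) (h : dir a b = dir a c) :
    ∃ t : ℝ, c - a = (t : ℂ) * (b - a) := by
  have h1 : b - a ≠ 0 := sub_ne_zero.2 hab.symm
  have h2 : conj (a - b) ≠ 0 := (map_ne_zero _).2 (sub_ne_zero.2 hab)
  have h3 : conj (a - c) ≠ 0 := (map_ne_zero _).2 (sub_ne_zero.2 hac)
  unfold dir at h
  rw [div_eq_div_iff h2 h3] at h
  have h4 : conj ((c - a) / (b - a)) = (c - a) / (b - a) := by
    rw [map_div₀]
    have e1 : conj (c - a) = -conj (a - c) := by rw [← map_neg]; congr 1; ring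
    have e2 : conj (b - a) = -conj (a - b) := by rw [← map_neg]; congr 1; ring
    have h5 : conj (b - a) ≠ 0 := by rw [e2]; exact neg_ne_zero.2 h2
    rw [div_eq_div_iff h5 h1, e1, e2]
    linear_combination h
  obtain ⟨t, ht⟩ := Complex.conj_eq_iff_real.1 h4
  refine ⟨t, ?_⟩
  rw [← ht, div_mul_cancel₀ _ h1]

/-- A degenerate relation for the four directions: the circles `abc` and `bcd` agree. -/
lemma center_eq {a b c d O O' : ℂ} {r r' : ℝ} (hab : a ≠ b) (hac : a ≠ c) (hbc : b ≠ c)
    (hbd : b ≠ d) (hcd : c ≠ d) (ha : dist a O = r) (hb : dist b O = r) (hc : dist c O = r)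
    (hb' : dist b O' = r') (hc' : dist c O' = r') (hd' : dist d O' = r')
    (h : dir a b * dir c d = dir a c * dir b d) : O = O' := by
  have hr := radius_ne_zero ha hb hab
  have hr' := radius_ne_zero hb' hc' hbc
  have e1 := dir_circle ha hb hab
  have e2 := dir_circle ha hc hac
  have e3 := dir_circle hb' hd' hbd
  have e4 := dir_circle hc' hd' hcd
  have ha0 : a - O ≠ 0 := by
    intro h0
    have := norm_sq_eq ha
    rw [h0, zero_mul] at this
    exact hr this.symm
  have hd0 : d - O' ≠ 0 := by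
    intro h0
    have := norm_sq_eq hd'
    rw [h0, zero_mul] at this
    exact hr' this.symm
  have e5 : (dir a b * (r : ℂ) ^ 2) * (dir c d * (r' : ℂ) ^ 2) =
      (dir a c * (r : ℂ) ^ 2) * (dir b d * (r' : ℂ) ^ 2) := by
    linear_combination ((r : ℂ) ^ 2 * (r' : ℂ) ^ 2) * h
  rw [e1, e2, e3, e4] at e5
  have e6 : ((a - O) * (d - O')) * ((c - b) * (O - O')) = 0 := by
    linear_combination (-1 : ℂ) * e5
  rcases mul_eq_zero.1 e6 with h1 | h1
  · exact absurd h1 (mul_ne_zero ha0 hd0)
  · rcases mul_eq_zero.1 h1 with h2 | h2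
    · exact absurd (sub_eq_zero.1 h2).symm hbc
    · exact sub_eq_zero.1 h2

/-- The direction as a unit. -/
noncomputable def dirU (z w : ℂ) : ℂˣ := by
  classical
  exact if h : z = w then 1 else Units.mk0 (dir z w) (dir_ne_zero h)

lemma dirU_val {z w : ℂ} (h : z ≠ w) : (dirU z w : ℂ) = dir z w := by
  unfold dirU
  simp [h]

lemma dirU_comm (z w : ℂ) : dirU z w = dirU w z := by
  by_cases h : z = w
  · rw [h]
  · ext
    rw [dirU_val h, dirU_val (Ne.symm h), dir_comm]

/-- The isometry between the plane and the complex numbers. -/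
noncomputable def toC : Plane ≃ₗᵢ[ℝ] ℂ := Complex.orthonormalBasisOneI.repr.symm

/-- The directions, written additively. -/
noncomputable def U (p : ℕ → Plane) (i j : ℕ) : Additive ℂˣ :=
  Additive.ofMul (dirU (toC (p i)) (toC (p j)))

lemma U_add_eq_iff {p : ℕ → Plane} {a b c d e f g h : ℕ} (h1 : p a ≠ p b) (h2 : p c ≠ p d)
    (h3 : p e ≠ p f) (h4 : p g ≠ p h) : U p a b + U p c d = U p e f + U p g h ↔
      dir (toC (p a)) (toC (p b)) * dir (toC (p c)) (toC (p d)) =
        dir (toC (p e)) (toC (p f)) * dir (toC (p g)) (toC (p h)) := by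
  have hi := toC.injective
  unfold U
  rw [← ofMul_mul, ← ofMul_mul, Additive.ofMul.injective.eq_iff, Units.ext_iff, Units.val_mul,
    Units.val_mul, dirU_val (hi.ne h1), dirU_val (hi.ne h2), dirU_val (hi.ne h3),
    dirU_val (hi.ne h4)]

end Pool.Agent.Lib.MP_75c8a4_co.Seven
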