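import Pool.Agent.Lib.MP_75c8a4_co.Defs

/-!
# Antipodal points on a rectangular hyperbola

On the hyperbola `x y = 1` the triangles with the parameters `x, y, t` and `x, y, -t` have the same
circumradius.
-/

open Finset

namespace Pool.Agent.Lib.MP_75c8a4_co.Seven

/-- The point with the parameter `t` on the hyperbola. -/
noncomputable def hyp (t : ℝ) : Plane := !₂[t, t⁻¹]

/-- The circumcentre of the triangle with the parameters `x, y, t`. -/
noncomputable def ctr (x y t : ℝ) : Plane :=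
  !₂[(x + y + t + (x * y * t)⁻¹) / 2, (x * y * t + x⁻¹ + y⁻¹ + t⁻¹) / 2]

lemma hyp_zero (t : ℝ) : hyp t 0 = t := rfl

lemma hyp_one (t : ℝ) : hyp t 1 = t⁻¹ := rfl

lemma hyp_inj {s t : ℝ} (h : hyp s = hyp t) : s = t := by
  have := congrArg (fun v : Plane => v 0) h
  exact this

lemma dist_hyp (t : ℝ) (c : Plane) :
    dist (hyp t) c = Real.sqrt ((t - c 0) ^ 2 + (t⁻¹ - c 1) ^ 2) := by
  rw [EuclideanSpace.dist_eq, Fin.sum_univ_two, Real.dist_eq, Real.dist_eq, sq_abs, sq_abs,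
    hyp_zero, hyp_one]

lemma radius_eq {x y t : ℝ} (hx : x ≠ 0) (hy : y ≠ 0) (ht : t ≠ 0) :
    ∃ r, IsCircumradius {hyp x, hyp y, hyp t} r ∧ IsCircumradius {hyp x, hyp y, hyp (-t)} r := by
  have c0 : ∀ x y t : ℝ, ctr x y t 0 = (x + y + t + (x * y * t)⁻¹) / 2 := fun _ _ _ => rfl
  have c1 : ∀ x y t : ℝ, ctr x y t 1 = (x * y * t + x⁻¹ + y⁻¹ + t⁻¹) / 2 := fun _ _ _ => rfl
  have hnt : -t ≠ 0 := neg_ne_zero.2 ht
  refine ⟨dist (hyp x) (ctr x y t), ⟨ctr x y t, ?_⟩, ⟨ctr x y (-t), ?_⟩⟩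
  · intro z hz
    simp only [mem_insert, mem_singleton] at hz
    rcases hz with rfl | rfl | rfl
    · rfl
    · rw [dist_hyp, dist_hyp, c0, c1]
      congr 1
      field_simp
      ring
    · rw [dist_hyp, dist_hyp, c0, c1]
      congr 1
      field_simp
      ring
  · intro z hz
    simp only [mem_insert, mem_singleton] at hz
    rcases hz with rfl | rfl | rfl
    · rw [dist_hyp, dist_hyp, c0, c1, c0, c1]
      congr 1
      field_simp
      ring
    · rw [dist_hyp, dist_hyp, c0, c1, c0, c1]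
      congr 1
      field_simp
      ring
    · rw [dist_hyp, dist_hyp, c0, c1, c0, c1]
      congr 1
      field_simp
      ring

lemma not_collinear_hyp {a b c : ℝ} (ha : a ≠ 0) (hb : b ≠ 0) (hc : c ≠ 0) (hab : a ≠ b)
    (hac : a ≠ c) (hbc : b ≠ c) : ¬ Collinear ℝ ({hyp a, hyp b, hyp c} : Set Plane) := by
  intro h
  rw [collinear_iff_of_mem (p₀ := hyp a) (by simp)] at h
  obtain ⟨v, hv⟩ := h
  obtain ⟨r, hr⟩ := hv (hyp b) (by simp)
  obtain ⟨s, hs⟩ := hv (hyp c) (by simp)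
  have r0 : b = r * v 0 + a := congrArg (fun v : Plane => v 0) hr
  have r1 : b⁻¹ = r * v 1 + a⁻¹ := congrArg (fun v : Plane => v 1) hr
  have s0 : c = s * v 0 + a := congrArg (fun v : Plane => v 0) hs
  have s1 : c⁻¹ = s * v 1 + a⁻¹ := congrArg (fun v : Plane => v 1) hs
  have h1 : (b - a) * (c⁻¹ - a⁻¹) = (c - a) * (b⁻¹ - a⁻¹) := by
    have e1 : b - a = r * v 0 := by linarith
    have e2 : c - a = s * v 0 := by linarith
    have e3 : b⁻¹ - a⁻¹ = r * v 1 := by linarith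
    have e4 : c⁻¹ - a⁻¹ = s * v 1 := by linarith
    rw [e1, e2, e3, e4]; ring
  have h2 : (b - a) * (a - c) * (b - c) = 0 := by
    have h3 : (b - a) * (c⁻¹ - a⁻¹) * (a * b * c) = (c - a) * (b⁻¹ - a⁻¹) * (a * b * c) := by
      rw [h1]
    have h4 : (b - a) * (c⁻¹ - a⁻¹) * (a * b * c) = (b - a) * (a - c) * b := by
      field_simp
    have h5 : (c - a) * (b⁻¹ - a⁻¹) * (a * b * c) = (c - a) * (a - b) * c := by
      field_simp
    rw [h4, h5] at h3
    linear_combination h3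
  rcases mul_eq_zero.1 h2 with h3 | h3
  · rcases mul_eq_zero.1 h3 with h4 | h4
    · exact hab (sub_eq_zero.1 h4).symm
    · exact hac (sub_eq_zero.1 h4)
  · exact hbc (sub_eq_zero.1 h3)

/-- The product of four different roots of a quartic polynomial with the constant term one. -/
lemma quartic {a b c d A E B : ℝ} (hab : a ≠ b) (hac : a ≠ c) (had : a ≠ d) (hbc : b ≠ c)
    (hbd : b ≠ d) (hcd : c ≠ d) (ha : a ^ 4 + A * a ^ 3 + E * a ^ 2 + B * a + 1 = 0)
    (hb : b ^ 4 + A * b ^ 3 + E * b ^ 2 + B * b + 1 = 0)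
    (hc : c ^ 4 + A * c ^ 3 + E * c ^ 2 + B * c + 1 = 0)
    (hd : d ^ 4 + A * d ^ 3 + E * d ^ 2 + B * d + 1 = 0) : a * b * c * d = 1 := by
  have g1 : ∀ y : ℝ, a ≠ y → y ^ 4 + A * y ^ 3 + E * y ^ 2 + B * y + 1 = 0 →
      (a ^ 3 + a ^ 2 * y + a * y ^ 2 + y ^ 3) + A * (a ^ 2 + a * y + y ^ 2) + E * (a + y) + B = 0 := by
    intro y hy h
    apply mul_left_cancel₀ (sub_ne_zero.2 hy)
    linear_combination ha - h
  have g2 : ∀ y : ℝ, b ≠ y → a ≠ y → y ^ 4 + A * y ^ 3 + E * y ^ 2 + B * y + 1 = 0 →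
      (a ^ 2 + a * (b + y) + b ^ 2 + b * y + y ^ 2) + A * (a + b + y) + E = 0 := by
    intro y hby hay h
    apply mul_left_cancel₀ (sub_ne_zero.2 hby)
    linear_combination g1 b hab hb - g1 y hay h
  have g3 : a + b + c + d + A = 0 := by
    apply mul_left_cancel₀ (sub_ne_zero.2 hcd)
    linear_combination g2 c hbc hac hc - g2 d hbd had hd
  have hA : A = -(a + b + c + d) := by linarith
  have hE : E = -(a ^ 2 + a * (b + c) + b ^ 2 + b * c + c ^ 2) - A * (a + b + c) := by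
    linarith [g2 c hbc hac hc]
  have hB : B = -(a ^ 3 + a ^ 2 * b + a * b ^ 2 + b ^ 3) - A * (a ^ 2 + a * b + b ^ 2) -
      E * (a + b) := by
    linarith [g1 b hab hb]
  rw [hB, hE, hA] at ha
  linear_combination (-1 : ℝ) * ha

lemma not_cospherical_hyp {a b c d : ℝ} (ha : a ≠ 0) (hb : b ≠ 0) (hc : c ≠ 0) (hd : d ≠ 0)
    (hab : a ≠ b) (hac : a ≠ c) (had : a ≠ d) (hbc : b ≠ c) (hbd : b ≠ d) (hcd : c ≠ d)
    (h : a * b * c * d ≠ 1) :
    ¬ EuclideanGeometry.Cospherical ({hyp a, hyp b, hyp c, hyp d} : Set Plane) := by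
  rintro ⟨O, r, hO⟩
  have key : ∀ t : ℝ, t ≠ 0 → dist (hyp t) O = r →
      t ^ 4 + (-2 * O 0) * t ^ 3 + ((O 0) ^ 2 + (O 1) ^ 2 - r ^ 2) * t ^ 2 + (-2 * O 1) * t + 1 =
        0 := by
    intro t ht h
    rw [dist_hyp] at h
    have h1 : (t - O 0) ^ 2 + (t⁻¹ - O 1) ^ 2 = r ^ 2 := by
      rw [← h, Real.sq_sqrt (by positivity)]
    have h2 : ((t - O 0) ^ 2 + (t⁻¹ - O 1) ^ 2) * t ^ 2 =
        (t - O 0) ^ 2 * t ^ 2 + (1 - O 1 * t) ^ 2 := by
      field_simp
    have h3 : ((t - O 0) ^ 2 + (t⁻¹ - O 1) ^ 2) * t ^ 2 = r ^ 2 * t ^ 2 := by rw [h1]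
    rw [h2] at h3
    linear_combination h3
  exact h (quartic hab hac had hbc hbd hcd (key a ha (hO _ (by simp))) (key b hb (hO _ (by simp)))
    (key c hc (hO _ (by simp))) (key d hd (hO _ (by simp))))

/-- The parameters: integers of absolute value between `2` and `k`. -/
noncomputable def params (k : ℕ) : Finset ℤ := Icc 2 (k : ℤ) ∪ Icc (-(k : ℤ)) (-2)

lemma mem_params {k : ℕ} {t : ℤ} : t ∈ params k ↔ (2 ≤ t ∧ t ≤ k) ∨ (-(k : ℤ) ≤ t ∧ t ≤ -2) := by
  simp [params]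

lemma card_params {k : ℕ} (hk : 1 ≤ k) : (params k).card = 2 * k - 2 := by
  unfold params
  rw [Finset.card_union_of_disjoint, Int.card_Icc, Int.card_Icc]
  · omega
  · rw [Finset.disjoint_left]
    intro t h1 h2
    rw [mem_Icc] at h1 h2
    omega

/-- The point set. -/
noncomputable def pts (k : ℕ) : Finset Plane := (params k).image fun t : ℤ => hyp (t : ℝ)

lemma hyp_int_inj : Function.Injective fun t : ℤ => hyp (t : ℝ) := by
  intro s t h
  exact_mod_cast hyp_inj h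

lemma card_pts {k : ℕ} (hk : 1 ≤ k) : (pts k).card = 2 * k - 2 := by
  rw [pts, Finset.card_image_of_injective _ hyp_int_inj, card_params hk]

lemma prod_ne_one {k : ℕ} {a : ℤ} (b c d : ℤ) (ha : a ∈ params k) : a * b * c * d ≠ 1 := by
  intro h
  have h1 : a ∣ 1 := ⟨b * c * d, by rw [← h]; ring⟩
  have h2 := Int.isUnit_iff.1 (isUnit_of_dvd_one h1)
  rw [mem_params] at ha
  omega

lemma generalPosition_pts (k : ℕ) : GeneralPosition (pts k) := by
  have hne : ∀ {t : ℤ}, t ∈ params k → (t : ℝ) ≠ 0 := by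
    intro t ht
    rw [mem_params] at ht
    have : t ≠ 0 := by omega
    exact_mod_cast this
  constructor
  · intro T hT h3
    obtain ⟨x, y, z, hxy, hxz, hyz, rfl⟩ := Finset.card_eq_three.1 h3
    have hx := hT (by simp : x ∈ _)
    have hy := hT (by simp : y ∈ _)
    have hz := hT (by simp : z ∈ _)
    simp only [pts, mem_image] at hx hy hz
    obtain ⟨a, ha, rfl⟩ := hx
    obtain ⟨b, hb, rfl⟩ := hy
    obtain ⟨c, hc, rfl⟩ := hz
    have := not_collinear_hyp (hne ha) (hne hb) (hne hc) (fun h => hxy (by rw [h]))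
      (fun h => hxz (by rw [h])) (fun h => hyz (by rw [h]))
    simpa using this
  · intro T hT h4
    obtain ⟨x, y, z, w, hxy, hxz, hxw, hyz, hyw, hzw, rfl⟩ := Finset.card_eq_four.1 h4
    have hx := hT (by simp : x ∈ _)
    have hy := hT (by simp : y ∈ _)
    have hz := hT (by simp : z ∈ _)
    have hw := hT (by simp : w ∈ _)
    simp only [pts, mem_image] at hx hy hz hw
    obtain ⟨a, ha, rfl⟩ := hx
    obtain ⟨b, hb, rfl⟩ := hy
    obtain ⟨c, hc, rfl⟩ := hz
    obtain ⟨d, hd, rfl⟩ := hw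
    have := not_cospherical_hyp (hne ha) (hne hb) (hne hc) (hne hd) (fun h => hxy (by rw [h]))
      (fun h => hxz (by rw [h])) (fun h => hxw (by rw [h])) (fun h => hyz (by rw [h]))
      (fun h => hyw (by rw [h])) (fun h => hzw (by rw [h]))
      (by exact_mod_cast prod_ne_one b c d ha)
    simpa using this

/-- The lower bound `n_k ≥ 2 k - 1`. -/
theorem not_forces {k : ℕ} (hk : 4 ≤ k) : ¬ Forces (2 * k - 2) k := by
  intro h
  obtain ⟨Y, hY, hYc, hYd⟩ := h (pts k) (card_pts (by omega)) (generalPosition_pts k)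
  -- the parameters of `Y`
  obtain ⟨T, hT, rfl⟩ := Finset.subset_image_iff.1 hY
  have hTc : T.card = k := by
    rw [Finset.card_image_of_injective _ hyp_int_inj] at hYc
    exact hYc
  have hTk : ∀ t ∈ T, t ∈ params k := fun t ht => hT ht
  -- two of them are opposite
  obtain ⟨s, hs, t, ht, hst, habs⟩ := Finset.exists_ne_map_eq_of_card_lt_of_maps_to
    (s := T) (t := Icc 2 k) (f := Int.natAbs) (by rw [hTc, Nat.card_Icc]; omega)
    (fun t ht => by
      have := mem_params.1 (hTk t ht)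
      rw [Finset.mem_coe, mem_Icc]
      omega)
  have hneg : s = -t := by
    rcases Int.natAbs_eq_natAbs_iff.1 habs with h | h
    · exact absurd h hst
    · exact h
  subst hneg
  -- two further ones
  have hc2 : 1 < ((T.erase t).erase (-t)).card := by
    rw [Finset.card_erase_of_mem (Finset.mem_erase.2 ⟨hst, hs⟩), Finset.card_erase_of_mem ht, hTc]
    omega
  obtain ⟨x, hx, y, hy, hxy⟩ := Finset.one_lt_card.1 hc2
  simp only [Finset.mem_erase] at hx hy
  obtain ⟨hx1, hx2, hx⟩ := hx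
  obtain ⟨hy1, hy2, hy⟩ := hy
  have hne : ∀ {t : ℤ}, t ∈ params k → (t : ℝ) ≠ 0 := by
    intro t ht
    rw [mem_params] at ht
    have : t ≠ 0 := by omega
    exact_mod_cast this
  obtain ⟨r, hr, hr'⟩ := radius_eq (hne (hTk x hx)) (hne (hTk y hy)) (hne (hTk t ht))
  have inj : ∀ {a b : ℤ}, a ≠ b → hyp (a : ℝ) ≠ hyp (b : ℝ) := fun h => hyp_int_inj.ne h
  have hcast : (-(t : ℝ)) = ((-t : ℤ) : ℝ) := by push_cast; ring
  rw [hcast] at hr'
  refine hYd {hyp x, hyp y, hyp t} ?_ {hyp x, hyp y, hyp ((-t : ℤ) : ℝ)} ?_ ?_ ?_ ?_ r r hr hr' rfl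
  · intro z hz
    simp only [mem_insert, mem_singleton] at hz
    rcases hz with rfl | rfl | rfl
    · exact Finset.mem_image_of_mem _ hx
    · exact Finset.mem_image_of_mem _ hy
    · exact Finset.mem_image_of_mem _ ht
  · intro z hz
    simp only [mem_insert, mem_singleton] at hz
    rcases hz with rfl | rfl | rfl
    · exact Finset.mem_image_of_mem _ hx
    · exact Finset.mem_image_of_mem _ hy
    · exact Finset.mem_image_of_mem _ hs
  · exact Finset.card_eq_three.2 ⟨_, _, _, inj hxy, inj hx2, inj hy2, rfl⟩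
  · exact Finset.card_eq_three.2 ⟨_, _, _, inj hxy, inj hx1, inj hy1, rfl⟩
  · intro he
    have : hyp (t : ℝ) ∈ ({hyp x, hyp y, hyp ((-t : ℤ) : ℝ)} : Finset Plane) := by
      rw [← he]; simp
    simp only [mem_insert, mem_singleton] at this
    rcases this with h | h | h
    · exact inj hx2 h.symm
    · exact inj hy2 h.symm
    · exact inj hst h.symm

/-- A subset of a set in general position is in general position. -/
lemma GeneralPosition.subset {X Y : Finset Plane} (hX : GeneralPosition X) (h : Y ⊆ X) :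
    GeneralPosition Y :=
  ⟨fun T hT => hX.1 T (hT.trans h), fun Q hQ => hX.2 Q (hQ.trans h)⟩

lemma Forces.mono {m n k : ℕ} (h : Forces m k) (hmn : m ≤ n) : Forces n k := by
  intro X hX hg
  obtain ⟨Z, hZ, hZc⟩ := Finset.exists_subset_card_eq (hX ▸ hmn : m ≤ X.card)
  obtain ⟨Y, hY, hYc, hYd⟩ := h Z hZc (GeneralPosition.subset hg hZ)
  exact ⟨Y, hY.trans hZ, hYc, hYd⟩

/-- `n_k ≥ 2 k - 1` for `k ≥ 4`. -/
theorem lower {m k : ℕ} (hk : 4 ≤ k) (h : Forces m k) : 2 * k - 1 ≤ m := by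
  by_contra hc
  exact not_forces hk (Forces.mono h (by omega))

end Pool.Agent.Lib.MP_75c8a4_co.Seven
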