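import Pool.Agent.Lib.MP_75c8a4_co.Seven.Checker

/-!
# Soundness of the checker
-/

open Finset

namespace Pool.Agent.Lib.MP_75c8a4_co.Seven

section enc

variable {A : Type*} [AddCommGroup A]

/-- The number with the digits `f k`. -/
def enc (f : ℕ → ℕ) : ℕ := ∑ k ∈ range 64, f k * 256 ^ k

/-- The combination with the coefficients `f k`. -/
def ev (U : ℕ → A) (f : ℕ → ℕ) : A := ∑ k ∈ range 64, f k • U k

lemma enc_add (f g : ℕ → ℕ) : enc (f + g) = enc f + enc g := by
  simp [enc, add_mul, Finset.sum_add_distrib]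

lemma ev_add (U : ℕ → A) (f g : ℕ → ℕ) : ev U (f + g) = ev U f + ev U g := by
  simp [ev, add_smul, Finset.sum_add_distrib]

lemma enc_smul (r : ℕ) (f : ℕ → ℕ) : enc (r • f) = r * enc f := by
  simp [enc, Finset.mul_sum, mul_assoc]

lemma ev_smul (U : ℕ → A) (r : ℕ) (f : ℕ → ℕ) : ev U (r • f) = r • ev U f := by
  simp [ev, Finset.smul_sum, mul_smul]

lemma enc_single {k : ℕ} (hk : k < 64) : enc (Pi.single k 1) = 256 ^ k := by
  unfold enc
  rw [Finset.sum_eq_single k]
  · simp
  · intro b _ hb
    simp [hb]
  · intro h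
    exact absurd (Finset.mem_range.2 hk) h

lemma ev_single (U : ℕ → A) {k : ℕ} (hk : k < 64) : ev U (Pi.single k 1) = U k := by
  unfold ev
  rw [Finset.sum_eq_single k]
  · simp
  · intro b _ hb
    simp [hb]
  · intro h
    exact absurd (Finset.mem_range.2 hk) h

lemma digits_inj : ∀ (n : ℕ) (f g : ℕ → ℕ), (∀ k, f k < 256) → (∀ k, g k < 256) →
    ∑ k ∈ range n, f k * 256 ^ k = ∑ k ∈ range n, g k * 256 ^ k → ∀ k < n, f k = g k := by
  intro n
  induction n with
  | zero => intro f g _ _ _ k hk; omega
  | succ n ih =>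
    intro f g hf hg h k hk
    rw [Finset.sum_range_succ', Finset.sum_range_succ'] at h
    have e : ∀ f : ℕ → ℕ, ∑ k ∈ range n, f (k + 1) * 256 ^ (k + 1) =
        256 * ∑ k ∈ range n, f (k + 1) * 256 ^ k := by
      intro f
      rw [Finset.mul_sum]
      refine Finset.sum_congr rfl fun k _ => ?_
      ring
    rw [e f, e g] at h
    simp only [pow_zero, mul_one] at h
    have h0 : f 0 = g 0 := by
      have := hf 0
      have := hg 0
      omega
    have h1 : ∑ k ∈ range n, f (k + 1) * 256 ^ k = ∑ k ∈ range n, g (k + 1) * 256 ^ k := by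
      omega
    rcases k with _ | k
    · exact h0
    · exact ih (fun k => f (k + 1)) (fun k => g (k + 1)) (fun k => hf _) (fun k => hg _) h1 k
        (by omega)

lemma ev_eq_of_enc_eq (U : ℕ → A) {f g : ℕ → ℕ} (hf : ∀ k, f k < 256) (hg : ∀ k, g k < 256)
    (h : enc f = enc g) : ev U f = ev U g := by
  unfold ev
  refine Finset.sum_congr rfl fun k hk => ?_
  rw [digits_inj 64 f g hf hg h k (Finset.mem_range.1 hk)]

/-- A vector of two units. -/
def two (a b c d : ℕ) : ℕ → ℕ := Pi.single (idx a b) 1 + Pi.single (idx c d) 1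

lemma idx_lt {i j : ℕ} (hi : i < 8) (hj : j < 8) : idx i j < 64 := by
  unfold idx
  cases Nat.blt i j <;> simp <;> omega

/-- The values on indices of pairs. -/
def vals (u : ℕ → ℕ → A) : ℕ → A := fun k => u (k / 8) (k % 8)

omit [AddCommGroup A] in
lemma vals_idx {u : ℕ → ℕ → A} (hu : ∀ i j, u i j = u j i) {i j : ℕ} (hi : i < 8) (hj : j < 8) :
    vals u (idx i j) = u i j := by
  unfold vals idx
  cases h : Nat.blt i j
  · have h1 : (8 * j + i) / 8 = j := by omega
    have h2 : (8 * j + i) % 8 = i := by omega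
    simp only [cond_false, h1, h2]
    exact hu j i
  · have h1 : (8 * i + j) / 8 = i := by omega
    have h2 : (8 * i + j) % 8 = j := by omega
    simp only [cond_true, h1, h2]

lemma enc_two {a b c d : ℕ} (ha : a < 8) (hb : b < 8) (hc : c < 8) (hd : d < 8) :
    enc (two a b c d) = pw a b + pw c d := by
  rw [two, enc_add, enc_single (idx_lt ha hb), enc_single (idx_lt hc hd)]
  rfl

lemma ev_two {u : ℕ → ℕ → A} (hu : ∀ i j, u i j = u j i) {a b c d : ℕ} (ha : a < 8) (hb : b < 8)
    (hc : c < 8) (hd : d < 8) : ev (vals u) (two a b c d) = u a b + u c d := by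
  rw [two, ev_add, ev_single _ (idx_lt ha hb), ev_single _ (idx_lt hc hd), vals_idx hu ha hb,
    vals_idx hu hc hd]

lemma two_le (a b c d k : ℕ) : two a b c d k ≤ 2 := by
  unfold two
  simp only [Pi.add_apply, Pi.single_apply]
  split_ifs <;> omega

/-- The relation with code `x` holds. -/
def Holds (u : ℕ → ℕ → A) (x : ℕ) : Prop := Rel u (x % 8) (x / 8 % 8) (x / 64 % 8) (x / 512 % 8)

/-- The vector of the left side. -/
def posV (x : ℕ) : ℕ → ℕ := two (x % 8) (x / 64 % 8) (x % 8) (x / 512 % 8)

/-- The vector of the right side. -/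
def negV (x : ℕ) : ℕ → ℕ := two (x / 8 % 8) (x / 64 % 8) (x / 8 % 8) (x / 512 % 8)

lemma enc_posV (x : ℕ) : enc (posV x) = posOf x := by
  rw [posV, enc_two (by omega) (by omega) (by omega) (by omega)]
  rfl

lemma enc_negV (x : ℕ) : enc (negV x) = negOf x := by
  rw [negV, enc_two (by omega) (by omega) (by omega) (by omega)]
  rfl

lemma holds_iff {u : ℕ → ℕ → A} (hu : ∀ i j, u i j = u j i) (x : ℕ) :
    Holds u x ↔ ev (vals u) (posV x) = ev (vals u) (negV x) := by
  rw [posV, negV, ev_two hu (by omega) (by omega) (by omega) (by omega),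
    ev_two hu (by omega) (by omega) (by omega) (by omega)]
  rfl

lemma chk_base {U : ℕ → A} {P N W : ℕ} (h : (Nat.beq P N && Nat.ble W 100) = true)
    {f g : ℕ → ℕ} (hf : enc f = P) (hg : enc g = N) (hf2 : ∀ k, f k ≤ 2 * W + 2)
    (hg2 : ∀ k, g k ≤ 2 * W + 2) : ev U f = ev U g := by
  rw [Bool.and_eq_true] at h
  obtain ⟨h1, h2⟩ := h
  have h1 : P = N := Nat.eq_of_beq_eq_true h1
  have h2 : W ≤ 100 := Nat.le_of_ble_eq_true h2
  refine ev_eq_of_enc_eq U (fun k => ?_) (fun k => ?_) (by rw [hf, hg, h1])
  · have := hf2 k; omega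
  · have := hg2 k; omega

lemma chk_sound {u : ℕ → ℕ → A} (hu : ∀ i j, u i j = u j i) : ∀ (l : List ℕ) (s P N W : ℕ),
    chk l s P N W = true → (∀ x ∈ l, Holds u x) → ∀ f g : ℕ → ℕ, enc f = P → enc g = N →
      (∀ k, f k ≤ 2 * W + 2) → (∀ k, g k ≤ 2 * W + 2) → ev (vals u) f = ev (vals u) g := by
  intro l
  induction l with
  | nil =>
    intro s P N W h _ f g hf hg hf2 hg2
    exact chk_base h hf hg hf2 hg2
  | cons e l ih =>
    intro s P N W h hl f g hf hg hf2 hg2
    rw [chk] at h
    cases hs : Nat.beq s 0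
    · rw [hs, cond_false] at h
      have he := (holds_iff hu e).1 (hl e (by simp))
      have hl' : ∀ x ∈ l, Holds u x := fun x hx => hl x (by simp [hx])
      cases hr : Nat.ble (s % 8) 3
      · rw [hr, cond_false] at h
        have := ih _ _ _ _ h hl' (f + (s % 8 - 4) • negV e) (g + (s % 8 - 4) • posV e)
          (by rw [enc_add, enc_smul, enc_negV, hf]) (by rw [enc_add, enc_smul, enc_posV, hg])
          (fun k => by
            have h1 := hf2 k
            have h2 : negV e k ≤ 2 := two_le _ _ _ _ _
            have h3 : (s % 8 - 4) * negV e k ≤ (s % 8 - 4) * 2 := Nat.mul_le_mul_left _ h2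
            simp only [Pi.add_apply, Pi.smul_apply, smul_eq_mul]
            omega)
          (fun k => by
            have h1 := hg2 k
            have h2 : posV e k ≤ 2 := two_le _ _ _ _ _
            have h3 : (s % 8 - 4) * posV e k ≤ (s % 8 - 4) * 2 := Nat.mul_le_mul_left _ h2
            simp only [Pi.add_apply, Pi.smul_apply, smul_eq_mul]
            omega)
        rw [ev_add, ev_add, ev_smul, ev_smul, he] at this
        exact add_right_cancel this
      · rw [hr, cond_true] at h
        have := ih _ _ _ _ h hl' (f + (s % 8) • posV e) (g + (s % 8) • negV e)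
          (by rw [enc_add, enc_smul, enc_posV, hf]) (by rw [enc_add, enc_smul, enc_negV, hg])
          (fun k => by
            have h1 := hf2 k
            have h2 : posV e k ≤ 2 := two_le _ _ _ _ _
            have h3 : (s % 8) * posV e k ≤ (s % 8) * 2 := Nat.mul_le_mul_left _ h2
            simp only [Pi.add_apply, Pi.smul_apply, smul_eq_mul]
            omega)
          (fun k => by
            have h1 := hg2 k
            have h2 : negV e k ≤ 2 := two_le _ _ _ _ _
            have h3 : (s % 8) * negV e k ≤ (s % 8) * 2 := Nat.mul_le_mul_left _ h2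
            simp only [Pi.add_apply, Pi.smul_apply, smul_eq_mul]
            omega)
        rw [ev_add, ev_add, ev_smul, ev_smul, he] at this
        exact add_right_cancel this
    · rw [hs, cond_true] at h
      exact chk_base h hf hg hf2 hg2

end enc

lemma dist4_spec {a b c d : ℕ} (h : dist4 a b c d = true) :
    a < 7 ∧ b < 7 ∧ c < 7 ∧ d < 7 ∧ a ≠ b ∧ a ≠ c ∧ a ≠ d ∧ b ≠ c ∧ b ≠ d ∧ c ≠ d := by
  simp only [dist4, Bool.and_eq_true, Bool.not_eq_true', Nat.blt_eq] at h
  obtain ⟨⟨⟨⟨⟨⟨⟨⟨⟨h1, h2⟩, h3⟩, h4⟩, h5⟩, h6⟩, h7⟩, h8⟩, h9⟩, h10⟩ := h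
  exact ⟨h1, h2, h3, h4, Nat.ne_of_beq_eq_false h5, Nat.ne_of_beq_eq_false h6,
    Nat.ne_of_beq_eq_false h7, Nat.ne_of_beq_eq_false h8, Nat.ne_of_beq_eq_false h9,
    Nat.ne_of_beq_eq_false h10⟩

lemma dist3_spec {a b c : ℕ} (h : dist3 a b c = true) :
    a < 7 ∧ b < 7 ∧ c < 7 ∧ a ≠ b ∧ a ≠ c ∧ b ≠ c := by
  simp only [dist3, Bool.and_eq_true, Bool.not_eq_true', Nat.blt_eq] at h
  obtain ⟨⟨⟨⟨⟨h1, h2⟩, h3⟩, h4⟩, h5⟩, h6⟩ := h
  exact ⟨h1, h2, h3, Nat.ne_of_beq_eq_false h4, Nat.ne_of_beq_eq_false h5,
    Nat.ne_of_beq_eq_false h6⟩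

/-- No configuration of seven points satisfies all the relations in the list. -/
def Bad (ctx : List ℕ) : Prop :=
  ∀ (A : Type) [AddCommGroup A] (u : ℕ → ℕ → A), Cfg u → ¬ ∀ x ∈ ctx, Holds u x

lemma closeLin_sound {ctx : List ℕ} {t s : ℕ} (h : closeLin ctx t s = true) : Bad ctx := by
  intro A _ u hu hx
  unfold closeLin at h
  cases ht : Nat.beq (t / 4096 % 2) 0
  · rw [ht, cond_false, Bool.and_eq_true] at h
    obtain ⟨h1, h2⟩ := h
    obtain ⟨ha, hb, hc, hd, hab, hac, had, hbc, hbd, hcd⟩ := dist4_spec h1
    have := chk_sound hu.symm _ _ _ _ _ h2 hx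
      (two (t % 8) (t / 64 % 8) (t / 8 % 8) (t / 512 % 8))
      (two (t % 8) (t / 8 % 8) (t / 64 % 8) (t / 512 % 8))
      (enc_two (by omega) (by omega) (by omega) (by omega))
      (enc_two (by omega) (by omega) (by omega) (by omega))
      (fun k => by have := two_le (t % 8) (t / 64 % 8) (t / 8 % 8) (t / 512 % 8) k; omega)
      (fun k => by have := two_le (t % 8) (t / 8 % 8) (t / 64 % 8) (t / 512 % 8) k; omega)
    rw [ev_two hu.symm (by omega) (by omega) (by omega) (by omega),
      ev_two hu.symm (by omega) (by omega) (by omega) (by omega)] at this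
    exact hu.cyc _ _ _ _ ha hb hc hd hab hac had hbc hbd hcd this.symm
  · rw [ht, cond_true, Bool.and_eq_true] at h
    obtain ⟨h1, h2⟩ := h
    obtain ⟨ha, hb, hc, hab, hac, hbc⟩ := dist3_spec h1
    have := chk_sound hu.symm _ _ _ _ _ h2 hx
      (Pi.single (idx (t % 8) (t / 64 % 8)) 1) (Pi.single (idx (t % 8) (t / 8 % 8)) 1)
      (enc_single (idx_lt (by omega) (by omega))) (enc_single (idx_lt (by omega) (by omega)))
      (fun k => by simp only [Pi.single_apply]; split_ifs <;> omega)
      (fun k => by simp only [Pi.single_apply]; split_ifs <;> omega)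
    rw [ev_single _ (idx_lt (by omega) (by omega)), ev_single _ (idx_lt (by omega) (by omega)),
      vals_idx hu.symm (by omega) (by omega), vals_idx hu.symm (by omega) (by omega)] at this
    exact hu.col _ _ _ ha hb hc hab hac hbc this.symm

lemma app_lt (σ i : ℕ) : app σ i < 8 := Nat.mod_lt _ (by norm_num)

/-- A code accepted by the test is the code of a permutation. -/
lemma isPerm_spec {σ : ℕ} (h : isPerm σ = true) :
    (∀ i < 7, app σ i < 7) ∧ ∀ i < 7, ∀ j < 7, i ≠ j → app σ i ≠ app σ j := by
  have h := Nat.eq_of_beq_eq_true h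
  -- every digit is hit
  have hsurj : ∀ k < 7, ∃ i < 7, app σ i = k := by
    intro k hk
    have h1 : Nat.testBit 127 k = true := by
      interval_cases k <;> decide
    rw [← h] at h1
    simp only [Nat.testBit_or, Nat.testBit_two_pow, Bool.or_eq_true, decide_eq_true_eq] at h1
    rcases h1 with (((((h1 | h1) | h1) | h1) | h1) | h1) | h1
    · exact ⟨0, by norm_num, h1⟩
    · exact ⟨1, by norm_num, h1⟩
    · exact ⟨2, by norm_num, h1⟩
    · exact ⟨3, by norm_num, h1⟩
    · exact ⟨4, by norm_num, h1⟩
    · exact ⟨5, by norm_num, h1⟩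
    · exact ⟨6, by norm_num, h1⟩
  have hlt : ∀ i < 7, app σ i < 7 := by
    intro i hi
    by_contra hc
    have h7 : app σ i = 7 := by have := app_lt σ i; omega
    have h1 : Nat.testBit 127 7 = false := by decide
    rw [← h] at h1
    simp only [Nat.testBit_or, Nat.testBit_two_pow, Bool.or_eq_false_iff, decide_eq_false_iff_not]
      at h1
    obtain ⟨⟨⟨⟨⟨⟨h0, h1⟩, h2⟩, h3⟩, h4⟩, h5⟩, h6⟩ := h1
    interval_cases i <;> simp_all
  refine ⟨hlt, ?_⟩
  let F : Fin 7 → Fin 7 := fun i => ⟨app σ i, hlt i i.2⟩
  have hF : Function.Surjective F := by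
    intro k
    obtain ⟨i, hi, hk⟩ := hsurj k k.2
    exact ⟨⟨i, hi⟩, Fin.ext hk⟩
  have hI : Function.Injective F := Finite.injective_iff_surjective.2 hF
  intro i hi j hj hij heq
  have := @hI ⟨i, hi⟩ ⟨j, hj⟩ (Fin.ext heq)
  exact hij (Fin.mk.inj_iff.1 this)

lemma Cfg.perm {A : Type*} [AddCommGroup A] {u : ℕ → ℕ → A} (hu : Cfg u) {σ : ℕ}
    (h : isPerm σ = true) : Cfg fun i j => u (app σ i) (app σ j) := by
  obtain ⟨h1, h2⟩ := isPerm_spec h
  constructor
  · intro i j
    exact hu.symm _ _
  · intro a b c ha hb hc hab hac hbc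
    exact hu.col _ _ _ (h1 a ha) (h1 b hb) (h1 c hc) (h2 a ha b hb hab) (h2 a ha c hc hac)
      (h2 b hb c hc hbc)
  · intro a b c d ha hb hc hd hab hac had hbc hbd hcd
    exact hu.cyc _ _ _ _ (h1 a ha) (h1 b hb) (h1 c hc) (h1 d hd) (h2 a ha b hb hab)
      (h2 a ha c hc hac) (h2 a ha d hd had) (h2 b hb c hc hbc) (h2 b hb d hd hbd)
      (h2 c hc d hd hcd)
  · intro a b c d ha hb hc hd hab hac had hbc hbd hcd
    exact hu.cover _ _ _ _ (h1 a ha) (h1 b hb) (h1 c hc) (h1 d hd) (h2 a ha b hb hab)
      (h2 a ha c hc hac) (h2 a ha d hd had) (h2 b hb c hc hbc) (h2 b hb d hd hbd)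
      (h2 c hc d hd hcd)

lemma digits_mk {a b c d : ℕ} (ha : a < 8) (hb : b < 8) (hc : c < 8) (hd : d < 8) :
    mk a b c d % 8 = a ∧ mk a b c d / 8 % 8 = b ∧ mk a b c d / 64 % 8 = c ∧
      mk a b c d / 512 % 8 = d := by
  unfold mk
  refine ⟨?_, ?_, ?_, ?_⟩ <;> omega

lemma holds_mk {A : Type*} [AddCommGroup A] {u : ℕ → ℕ → A} {a b c d : ℕ} (ha : a < 8)
    (hb : b < 8) (hc : c < 8) (hd : d < 8) : Holds u (mk a b c d) ↔ Rel u a b c d := by
  obtain ⟨h1, h2, h3, h4⟩ := digits_mk ha hb hc hd
  rw [Holds, h1, h2, h3, h4]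

lemma canon_eq (a b c d : ℕ) : canon a b c d = mk a b c d ∨ canon a b c d = mk b a c d ∨
    canon a b c d = mk a b d c ∨ canon a b c d = mk b a d c := by
  unfold canon mk
  cases Nat.blt a b <;> cases Nat.blt c d <;> simp only [cond_true, cond_false]
  · right; right; right; ring
  · right; left; ring
  · right; right; left; ring
  · left; ring

lemma holds_canon {A : Type*} [AddCommGroup A] {u : ℕ → ℕ → A} {a b c d : ℕ} (ha : a < 8)
    (hb : b < 8) (hc : c < 8) (hd : d < 8) (h : Holds u (canon a b c d)) : Rel u a b c d := by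
  rcases canon_eq a b c d with e | e | e | e <;> rw [e] at h
  · exact (holds_mk ha hb hc hd).1 h
  · exact ((holds_mk hb ha hc hd).1 h).symm
  · have := (holds_mk ha hb hd hc).1 h
    unfold Rel at this ⊢
    rw [add_comm (u a c), add_comm (u b c)]
    exact this
  · have := (holds_mk hb ha hd hc).1 h
    unfold Rel at this ⊢
    rw [add_comm (u a c), add_comm (u b c)]
    exact this.symm

lemma elem_spec {x : ℕ} {l : List ℕ} (h : elem x l = true) : x ∈ l := by
  induction l with
  | nil => simp [elem] at h
  | cons y l ih =>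
    rw [elem, Bool.or_eq_true] at h
    rcases h with h | h
    · rw [Nat.eq_of_beq_eq_true h]; simp
    · exact List.mem_cons_of_mem _ (ih h)

lemma allIn_spec {σ : ℕ} {ctx p : List ℕ} (h : allIn σ ctx p = true) :
    ∀ x ∈ p, permCode σ x ∈ ctx := by
  induction p with
  | nil => simp
  | cons y l ih =>
    rw [allIn, Bool.and_eq_true] at h
    intro x hx
    rcases List.mem_cons.1 hx with rfl | hx
    · exact elem_spec h.1
    · exact ih h.2 x hx

lemma cite_sound {σ : ℕ} (hσ : isPerm σ = true) {ctx : List ℕ} {lems : List (List ℕ)}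
    (hl : ∀ p ∈ lems, Bad p) {n : ℕ} (h : cite σ ctx lems n = true) : Bad ctx := by
  induction lems generalizing n with
  | nil => simp [cite] at h
  | cons p ps ih =>
    rw [cite] at h
    cases hn : Nat.beq n 0
    · rw [hn, cond_false] at h
      exact ih (fun q hq => hl q (by simp [hq])) h
    · rw [hn, cond_true] at h
      intro A _ u hu hx
      refine hl p (by simp) A _ (hu.perm hσ) fun x hxp => ?_
      have h1 := hx _ (allIn_spec h x hxp)
      exact holds_canon (u := u) (app_lt σ (x % 8)) (app_lt σ (x / 8 % 8)) (app_lt σ (x / 64 % 8))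
        (app_lt σ (x / 512 % 8)) h1

lemma bad_of_cons {A : Type} [AddCommGroup A] {u : ℕ → ℕ → A} (hu : Cfg u) {ctx : List ℕ}
    (hx : ∀ x ∈ ctx, Holds u x) {a b c d : ℕ} (ha : a < 7) (hb : b < 7) (hc : c < 7) (hd : d < 7)
    (h : Bad (mk a b c d :: ctx)) (hr : Rel u a b c d) : False := by
  refine h A u hu fun x hxm => ?_
  rcases List.mem_cons.1 hxm with rfl | hxm
  · exact (holds_mk (by omega) (by omega) (by omega) (by omega)).2 hr
  · exact hx x hxm

theorem run_sound {lems : List (List ℕ)} (hl : ∀ p ∈ lems, Bad p) :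
    ∀ (is : List ℕ) (st : List (List ℕ)), run lems is st = true → ∀ c ∈ st, Bad c := by
  intro is
  induction is with
  | nil =>
    intro st h
    cases st with
    | nil => simp
    | cons c st => simp [run] at h
  | cons i is ih =>
    intro st h
    cases st with
    | nil => simp
    | cons ctx st =>
      rw [run] at h
      cases h0 : Nat.beq (i % 4) 0
      · rw [h0, cond_false] at h
        cases h1 : Nat.beq (i % 4) 1
        · rw [h1, cond_false] at h
          cases h2 : Nat.beq (i % 4) 2
          · rw [h2, cond_false, Bool.and_eq_true, Bool.and_eq_true] at h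
            obtain ⟨⟨ha, hb⟩, hc⟩ := h
            intro c hcm
            rcases List.mem_cons.1 hcm with rfl | hcm
            · exact cite_sound ha hl hb
            · exact ih st hc c hcm
          · rw [h2, cond_true, Bool.and_eq_true] at h
            obtain ⟨ha, hb⟩ := h
            have hb := ih _ hb
            intro c hcm
            rcases List.mem_cons.1 hcm with rfl | hcm
            · intro A _ u hu hx
              refine hb _ (by simp : (i / 4 % 4096 :: c) ∈ _) A u hu fun x hxm => ?_
              rcases List.mem_cons.1 hxm with rfl | hxm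
              · rw [holds_iff hu.symm]
                exact (chk_sound hu.symm _ _ _ _ _ ha hx (negV (i / 4 % 4096))
                  (posV (i / 4 % 4096)) (enc_negV _) (enc_posV _)
                  (fun k => by have := two_le ((i / 4 % 4096) / 8 % 8) ((i / 4 % 4096) / 64 % 8)
                                ((i / 4 % 4096) / 8 % 8) ((i / 4 % 4096) / 512 % 8) k
                               exact this)
                  (fun k => by have := two_le ((i / 4 % 4096) % 8) ((i / 4 % 4096) / 64 % 8)
                                ((i / 4 % 4096) % 8) ((i / 4 % 4096) / 512 % 8) k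
                               exact this)).symm
              · exact hx x hxm
            · exact hb c (by simp [hcm])
        · rw [h1, cond_true, Bool.and_eq_true] at h
          intro c hcm
          rcases List.mem_cons.1 hcm with rfl | hcm
          · exact closeLin_sound h.1
          · exact ih st h.2 c hcm
      · rw [h0, cond_true, Bool.and_eq_true] at h
        obtain ⟨hd, h⟩ := h
        obtain ⟨ha, hb, hc, hd, hab, hac, had, hbc, hbd, hcd⟩ := dist4_spec hd
        have h := ih _ h
        intro c hcm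
        rcases List.mem_cons.1 hcm with rfl | hcm
        · intro A _ u hu hx
          rcases hu.cover _ _ _ _ ha hb hc hd hab hac had hbc hbd hcd with
            e | e | e | e | e | e
          · exact bad_of_cons hu hx (by assumption) (by assumption) (by assumption)
              (by assumption) (h _ (by simp)) e
          · exact bad_of_cons hu hx (by assumption) (by assumption) (by assumption)
              (by assumption) (h _ (by simp)) e
          · exact bad_of_cons hu hx (by assumption) (by assumption) (by assumption)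
              (by assumption) (h _ (by simp)) e
          · exact bad_of_cons hu hx (by assumption) (by assumption) (by assumption)
              (by assumption) (h _ (by simp)) e
          · exact bad_of_cons hu hx (by assumption) (by assumption) (by assumption)
              (by assumption) (h _ (by simp)) e
          · exact bad_of_cons hu hx (by assumption) (by assumption) (by assumption)
              (by assumption) (h _ (by simp)) e
        · exact h c (by simp [hcm])

theorem runAll_sound : ∀ (data : List (List ℕ × List ℕ)) (lems : List (List ℕ)),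
    runAll data lems = true → (∀ p ∈ lems, Bad p) → ∀ p ∈ data, Bad p.1 := by
  intro data
  induction data with
  | nil => simp
  | cons q rest ih =>
    intro lems h hl p hp
    rw [runAll, Bool.and_eq_true] at h
    have hq : Bad q.1 := run_sound hl _ _ h.1 _ (by simp)
    rcases List.mem_cons.1 hp with rfl | hp
    · exact hq
    · refine ih (q.1 :: lems) h.2 (fun r hr => ?_) p hp
      rcases List.mem_cons.1 hr with rfl | hr
      · exact hq
      · exact hl r hr

/-- A list of patterns, all of them forbidden. -/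
def AllBad (l : List (List ℕ)) : Prop := ∀ p ∈ l, Bad p

/-- The patterns after a chunk of certificates. -/
def next (data : List (List ℕ × List ℕ)) (lems : List (List ℕ)) : List (List ℕ) :=
  (data.map Prod.fst).reverse ++ lems

theorem AllBad.next {data : List (List ℕ × List ℕ)} {lems : List (List ℕ)} (hl : AllBad lems)
    (h : runAll data lems = true) : AllBad (next data lems) := by
  intro p hp
  rcases List.mem_append.1 hp with hp | hp
  · rw [List.mem_reverse, List.mem_map] at hp
    obtain ⟨q, hq, rfl⟩ := hp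
    exact runAll_sound data lems h hl q hq
  · exact hl p hp

end Pool.Agent.Lib.MP_75c8a4_co.Seven
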