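import Pool.Agent.Lib.MP_75c8a4_co.Seven.Geometry
import Pool.Agent.Lib.MP_75c8a4_co.Seven.Data2

/-!
# Seven points in general position contain four points with distinct circumradii
-/

open Finset

namespace Pool.Agent.Lib.MP_75c8a4_co.Seven

lemma dist_toC (x y : Plane) : dist (toC x) (toC y) = dist x y := toC.dist_map x y

/-- Seven different points in general position, and every quadruple has two triangles of the same
circumradius. -/
structure Pts (p : ℕ → Plane) : Prop where
  inj : ∀ i < 7, ∀ j < 7, i ≠ j → p i ≠ p j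
  col : ∀ a b c, a < 7 → b < 7 → c < 7 → a ≠ b → a ≠ c → b ≠ c →
    ¬ Collinear ℝ ({p a, p b, p c} : Set Plane)
  cyc : ∀ a b c d, a < 7 → b < 7 → c < 7 → d < 7 → a ≠ b → a ≠ c → a ≠ d → b ≠ c → b ≠ d → c ≠ d →
    ¬ EuclideanGeometry.Cospherical ({p a, p b, p c, p d} : Set Plane)
  eq : ∀ a b c d, a < 7 → b < 7 → c < 7 → d < 7 → a ≠ b → a ≠ c → a ≠ d → b ≠ c → b ≠ d → c ≠ d →
    ¬ DistinctCircumradii {p a, p b, p c, p d}

/-- The relation for two triangles `kli` and `klj` of the same circumradius. -/
lemma Pts.rel {p : ℕ → Plane} (hp : Pts p) {k l i j : ℕ} (hk : k < 7) (hl : l < 7) (hi : i < 7)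
    (hj : j < 7) (hkl : k ≠ l) (hki : k ≠ i) (hkj : k ≠ j) (hli : l ≠ i) (hlj : l ≠ j)
    (hij : i ≠ j) {O O' : Plane} {r : ℝ} (h1 : dist (p k) O = r) (h2 : dist (p l) O = r)
    (h3 : dist (p i) O = r) (h1' : dist (p k) O' = r) (h2' : dist (p l) O' = r)
    (h3' : dist (p j) O' = r) : Rel (U p) k l i j := by
  have hO : O ≠ O' := by
    rintro rfl
    refine hp.cyc k l i j hk hl hi hj hkl hki hkj hli hlj hij ⟨O, r, ?_⟩
    intro x hx
    simp only [Set.mem_insert_iff, Set.mem_singleton_iff] at hx
    rcases hx with rfl | rfl | rfl | rfl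
    · exact h1
    · exact h2
    · exact h3
    · exact h3'
  have ne : ∀ i j, i < 7 → j < 7 → i ≠ j → toC (p i) ≠ toC (p j) := fun i j hi hj hij =>
    toC.injective.ne (hp.inj i hi j hj hij)
  unfold Rel
  rw [U_add_eq_iff (hp.inj k hk i hi hki) (hp.inj k hk j hj hkj) (hp.inj l hl i hi hli)
    (hp.inj l hl j hj hlj)]
  exact rel_of_radius (ne k l hk hl hkl) (ne k i hk hi hki) (ne k j hk hj hkj) (ne l i hl hi hli)
    (ne l j hl hj hlj) (toC.injective.ne hO) (r := r) (by rw [dist_toC]; exact h1)
    (by rw [dist_toC]; exact h2) (by rw [dist_toC]; exact h3) (by rw [dist_toC]; exact h1')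
    (by rw [dist_toC]; exact h2') (by rw [dist_toC]; exact h3')

lemma Pts.rel' {p : ℕ → Plane} (hp : Pts p) {k l i j : ℕ} (hk : k < 7) (hl : l < 7) (hi : i < 7)
    (hj : j < 7) (hkl : k ≠ l) (hki : k ≠ i) (hkj : k ≠ j) (hli : l ≠ i) (hlj : l ≠ j)
    (hij : i ≠ j) {T T' : Finset Plane} {r : ℝ} (h : IsCircumradius T r)
    (h' : IsCircumradius T' r) (hkT : p k ∈ T) (hlT : p l ∈ T) (hiT : p i ∈ T) (hkT' : p k ∈ T')
    (hlT' : p l ∈ T') (hjT' : p j ∈ T') : Rel (U p) k l i j := by
  obtain ⟨O, hO⟩ := h
  obtain ⟨O', hO'⟩ := h'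
  exact hp.rel hk hl hi hj hkl hki hkj hli hlj hij (hO _ hkT) (hO _ hlT) (hO _ hiT) (hO' _ hkT')
    (hO' _ hlT') (hO' _ hjT')

/-- Three-element subsets of a set of four elements miss one element. -/
lemma triple_cases {α : Type*} [DecidableEq α] {x y z w : α} {T : Finset α}
    (hT : T ⊆ {x, y, z, w}) (h3 : T.card = 3) (hxy : x ≠ y) (hxz : x ≠ z) (hxw : x ≠ w)
    (hyz : y ≠ z) (hyw : y ≠ w) (hzw : z ≠ w) :
    T = {x, y, z} ∨ T = {x, y, w} ∨ T = {x, z, w} ∨ T = {y, z, w} := by
  have h4 : ({x, y, z, w} : Finset α).card = 4 := by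
    rw [Finset.card_insert_of_notMem (by simp [hxy, hxz, hxw]),
      Finset.card_insert_of_notMem (by simp [hyz, hyw]),
      Finset.card_insert_of_notMem (by simp [hzw]), Finset.card_singleton]
  have hd : (({x, y, z, w} : Finset α) \ T).card = 1 := by
    rw [Finset.card_sdiff_of_subset hT, h4, h3]
  obtain ⟨v, hv⟩ := Finset.card_eq_one.1 hd
  have hTe : T = ({x, y, z, w} : Finset α) \ {v} := by
    rw [← hv, Finset.sdiff_sdiff_eq_self hT]
  have hvm : v ∈ ({x, y, z, w} : Finset α) := by
    have : v ∈ ({x, y, z, w} : Finset α) \ T := by rw [hv]; simp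
    exact (Finset.mem_sdiff.1 this).1
  simp only [Finset.mem_insert, Finset.mem_singleton] at hvm
  rcases hvm with rfl | rfl | rfl | rfl
  · right; right; right
    rw [hTe]; ext t
    simp only [Finset.mem_sdiff, Finset.mem_insert, Finset.mem_singleton]
    constructor
    · rintro ⟨rfl | h | h | h, h'⟩
      · exact absurd rfl h'
      · exact Or.inl h
      · exact Or.inr (Or.inl h)
      · exact Or.inr (Or.inr h)
    · rintro (rfl | rfl | rfl)
      · exact ⟨by simp, hxy.symm⟩
      · exact ⟨by simp, hxz.symm⟩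
      · exact ⟨by simp, hxw.symm⟩
  · right; right; left
    rw [hTe]; ext t
    simp only [Finset.mem_sdiff, Finset.mem_insert, Finset.mem_singleton]
    constructor
    · rintro ⟨h | rfl | h | h, h'⟩
      · exact Or.inl h
      · exact absurd rfl h'
      · exact Or.inr (Or.inl h)
      · exact Or.inr (Or.inr h)
    · rintro (rfl | rfl | rfl)
      · exact ⟨by simp, hxy⟩
      · exact ⟨by simp, hyz.symm⟩
      · exact ⟨by simp, hyw.symm⟩
  · right; left
    rw [hTe]; ext t
    simp only [Finset.mem_sdiff, Finset.mem_insert, Finset.mem_singleton]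
    constructor
    · rintro ⟨h | h | rfl | h, h'⟩
      · exact Or.inl h
      · exact Or.inr (Or.inl h)
      · exact absurd rfl h'
      · exact Or.inr (Or.inr h)
    · rintro (rfl | rfl | rfl)
      · exact ⟨by simp, hxz⟩
      · exact ⟨by simp, hyz⟩
      · exact ⟨by simp, hzw.symm⟩
  · left
    rw [hTe]; ext t
    simp only [Finset.mem_sdiff, Finset.mem_insert, Finset.mem_singleton]
    constructor
    · rintro ⟨h | h | h | rfl, h'⟩
      · exact Or.inl h
      · exact Or.inr (Or.inl h)
      · exact Or.inr (Or.inr h)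
      · exact absurd rfl h'
    · rintro (rfl | rfl | rfl)
      · exact ⟨by simp, hxw⟩
      · exact ⟨by simp, hyw⟩
      · exact ⟨by simp, hzw⟩

lemma Rel.swap {A : Type*} [AddCommGroup A] {u : ℕ → ℕ → A} {a b c d : ℕ} (h : Rel u a b c d) :
    Rel u a b d c := by
  unfold Rel at h ⊢
  rw [add_comm (u a d), add_comm (u b d)]
  exact h

theorem Pts.cfg {p : ℕ → Plane} (hp : Pts p) : Cfg (U p) := by
  have ne : ∀ i j, i < 7 → j < 7 → i ≠ j → toC (p i) ≠ toC (p j) := fun i j hi hj hij =>
    toC.injective.ne (hp.inj i hi j hj hij)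
  constructor
  · intro i j
    unfold U
    rw [dirU_comm]
  · -- collinear
    intro a b c ha hb hc hab hac hbc h
    apply hp.col a b c ha hb hc hab hac hbc
    unfold U at h
    have h : (dirU (toC (p a)) (toC (p b)) : ℂ) = dirU (toC (p a)) (toC (p c)) :=
      congrArg Units.val (Additive.ofMul.injective h)
    rw [dirU_val (ne a b ha hb hab), dirU_val (ne a c ha hc hac)] at h
    obtain ⟨t, ht⟩ := real_of_dir (ne a b ha hb hab) (ne a c ha hc hac) h
    have h2 : p c - p a = t • (p b - p a) := by
      apply toC.injective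
      rw [map_sub, map_smul, map_sub, ht, Complex.real_smul]
    rw [collinear_iff_of_mem (p₀ := p a) (by simp)]
    refine ⟨p b - p a, fun x hx => ?_⟩
    simp only [Set.mem_insert_iff, Set.mem_singleton_iff] at hx
    rcases hx with rfl | rfl | rfl
    · exact ⟨0, by simp⟩
    · exact ⟨1, by simp⟩
    · exact ⟨t, by rw [← h2]; simp⟩
  · -- cocircular
    intro a b c d ha hb hc hd hab hac had hbc hbd hcd h
    apply hp.cyc a b c d ha hb hc hd hab hac had hbc hbd hcd
    rw [U_add_eq_iff (hp.inj a ha b hb hab) (hp.inj c hc d hd hcd) (hp.inj a ha c hc hac)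
      (hp.inj b hb d hd hbd)] at h
    have card3 : ∀ {x y z : ℕ}, x < 7 → y < 7 → z < 7 → x ≠ y → x ≠ z → y ≠ z →
        ({p x, p y, p z} : Finset Plane).card = 3 := by
      intro x y z hx hy hz hxy hxz hyz
      rw [Finset.card_eq_three]
      exact ⟨_, _, _, hp.inj x hx y hy hxy, hp.inj x hx z hz hxz, hp.inj y hy z hz hyz, rfl⟩
    obtain ⟨r, O, hO⟩ := exists_circumradius (card3 ha hb hc hab hac hbc)
      (by simpa using hp.col a b c ha hb hc hab hac hbc)
    obtain ⟨r', O', hO'⟩ := exists_circumradius (card3 hb hc hd hbc hbd hcd)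
      (by simpa using hp.col b c d hb hc hd hbc hbd hcd)
    have e := center_eq (ne a b ha hb hab) (ne a c ha hc hac) (ne b c hb hc hbc)
      (ne b d hb hd hbd) (ne c d hc hd hcd) (O := toC O) (O' := toC O') (r := r) (r' := r')
      (by rw [dist_toC]; exact hO _ (by simp)) (by rw [dist_toC]; exact hO _ (by simp))
      (by rw [dist_toC]; exact hO _ (by simp)) (by rw [dist_toC]; exact hO' _ (by simp))
      (by rw [dist_toC]; exact hO' _ (by simp)) (by rw [dist_toC]; exact hO' _ (by simp)) h
    have e := toC.injective e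
    subst e
    have hr : r' = r := by
      rw [← hO' (p b) (by simp), hO (p b) (by simp)]
    subst hr
    refine ⟨O, r', ?_⟩
    intro x hx
    simp only [Set.mem_insert_iff, Set.mem_singleton_iff] at hx
    rcases hx with rfl | rfl | rfl | rfl
    · exact hO _ (by simp)
    · exact hO _ (by simp)
    · exact hO _ (by simp)
    · exact hO' _ (by simp)
  · intro a b c d ha hb hc hd hab hac had hbc hbd hcd
    have h := hp.eq a b c d ha hb hc hd hab hac had hbc hbd hcd
    unfold DistinctCircumradii at h
    push Not at h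
    obtain ⟨T, hT, T', hT', h3, h3', hne, r, r', hr, hr', hrr⟩ := h
    subst hrr
    have nab := hp.inj a ha b hb hab
    have nac := hp.inj a ha c hc hac
    have nad := hp.inj a ha d hd had
    have nbc := hp.inj b hb c hc hbc
    have nbd := hp.inj b hb d hd hbd
    have ncd := hp.inj c hc d hd hcd
    rcases triple_cases hT h3 nab nac nad nbc nbd ncd with e | e | e | e <;>
    rcases triple_cases hT' h3' nab nac nad nbc nbd ncd with e' | e' | e' | e' <;>
    subst e <;> subst e'
    · exact absurd rfl hne
    · -- abc, abd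
      exact Or.inl (hp.rel' ha hb hc hd hab hac had hbc hbd hcd hr hr' (by simp) (by simp)
        (by simp) (by simp) (by simp) (by simp))
    · -- abc, acd
      exact Or.inr (Or.inl (hp.rel' ha hc hb hd hac hab had hbc.symm hcd hbd hr hr' (by simp)
        (by simp) (by simp) (by simp) (by simp) (by simp)))
    · -- abc, bcd
      exact Or.inr (Or.inr (Or.inr (Or.inl (hp.rel' hb hc ha hd hbc hab.symm hbd hac.symm hcd had
        hr hr' (by simp) (by simp) (by simp) (by simp) (by simp) (by simp)))))
    · -- abd, abc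
      exact Or.inl (hp.rel' ha hb hd hc hab had hac hbd hbc hcd.symm hr hr' (by simp) (by simp)
        (by simp) (by simp) (by simp) (by simp)).swap
    · exact absurd rfl hne
    · -- abd, acd
      exact Or.inr (Or.inr (Or.inl (hp.rel' ha hd hb hc had hab hac hbd.symm hcd.symm hbc hr hr'
        (by simp) (by simp) (by simp) (by simp) (by simp) (by simp))))
    · -- abd, bcd
      exact Or.inr (Or.inr (Or.inr (Or.inr (Or.inl (hp.rel' hb hd ha hc hbd hab.symm hbc had.symm
        hcd.symm hac hr hr' (by simp) (by simp) (by simp) (by simp) (by simp) (by simp))))))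
    · -- acd, abc
      exact Or.inr (Or.inl (hp.rel' ha hc hd hb hac had hab hcd hbc.symm hbd.symm hr hr' (by simp)
        (by simp) (by simp) (by simp) (by simp) (by simp)).swap)
    · -- acd, abd
      exact Or.inr (Or.inr (Or.inl (hp.rel' ha hd hc hb had hac hab hcd.symm hbd.symm hbc.symm
        hr hr' (by simp) (by simp) (by simp) (by simp) (by simp) (by simp)).swap))
    · exact absurd rfl hne
    · -- acd, bcd
      exact Or.inr (Or.inr (Or.inr (Or.inr (Or.inr (hp.rel' hc hd ha hb hcd hac.symm hbc.symm
        had.symm hbd.symm hab hr hr' (by simp) (by simp) (by simp) (by simp) (by simp)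
        (by simp))))))
    · -- bcd, abc
      exact Or.inr (Or.inr (Or.inr (Or.inl (hp.rel' hb hc hd ha hbc hbd hab.symm hcd hac.symm
        had.symm hr hr' (by simp) (by simp) (by simp) (by simp) (by simp) (by simp)).swap)))
    · -- bcd, abd
      exact Or.inr (Or.inr (Or.inr (Or.inr (Or.inl (hp.rel' hb hd hc ha hbd hbc hab.symm hcd.symm
        had.symm hac.symm hr hr' (by simp) (by simp) (by simp) (by simp) (by simp)
        (by simp)).swap))))
    · -- bcd, acd
      exact Or.inr (Or.inr (Or.inr (Or.inr (Or.inr (hp.rel' hc hd hb ha hcd hbc.symm hac.symm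
        hbd.symm had.symm hab.symm hr hr' (by simp) (by simp) (by simp) (by simp) (by simp)
        (by simp)).swap))))
    · exact absurd rfl hne

/-- Every set of seven points in general position contains four points with distinct
circumradii. -/
theorem forces_seven : Forces 7 4 := by
  intro X hX hg
  by_contra hcon
  push Not at hcon
  let e := X.equivFinOfCardEq hX
  let p : ℕ → Plane := fun i => if h : i < 7 then ((e.symm ⟨i, h⟩ : X) : Plane) else 0
  have hpv : ∀ i (h : i < 7), p i = ((e.symm ⟨i, h⟩ : X) : Plane) := fun i h => by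
    simp only [p, dif_pos h]
  have hmem : ∀ i, i < 7 → p i ∈ X := fun i h => by rw [hpv i h]; exact (e.symm ⟨i, h⟩).2
  have hinj : ∀ i < 7, ∀ j < 7, i ≠ j → p i ≠ p j := by
    intro i hi j hj hij h
    rw [hpv i hi, hpv j hj] at h
    have := e.symm.injective (Subtype.ext h)
    exact hij (Fin.mk.inj_iff.1 this)
  have hp : Pts p := by
    refine ⟨hinj, ?_, ?_, ?_⟩
    · intro a b c ha hb hc hab hac hbc h
      refine hg.1 {p a, p b, p c} ?_ ?_ (by simpa using h)
      · intro x hx
        simp only [Finset.mem_insert, Finset.mem_singleton] at hx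
        rcases hx with rfl | rfl | rfl
        · exact hmem a ha
        · exact hmem b hb
        · exact hmem c hc
      · rw [Finset.card_eq_three]
        exact ⟨_, _, _, hinj a ha b hb hab, hinj a ha c hc hac, hinj b hb c hc hbc, rfl⟩
    · intro a b c d ha hb hc hd hab hac had hbc hbd hcd h
      refine hg.2 {p a, p b, p c, p d} ?_ ?_ (by simpa using h)
      · intro x hx
        simp only [Finset.mem_insert, Finset.mem_singleton] at hx
        rcases hx with rfl | rfl | rfl | rfl
        · exact hmem a ha
        · exact hmem b hb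
        · exact hmem c hc
        · exact hmem d hd
      · rw [Finset.card_insert_of_notMem, Finset.card_insert_of_notMem,
          Finset.card_insert_of_notMem, Finset.card_singleton]
        · simp [hinj c hc d hd hcd]
        · simp [hinj b hb c hc hbc, hinj b hb d hd hbd]
        · simp [hinj a ha b hb hab, hinj a ha c hc hac, hinj a ha d hd had]
    · intro a b c d ha hb hc hd hab hac had hbc hbd hcd
      apply hcon {p a, p b, p c, p d}
      · intro x hx
        simp only [Finset.mem_insert, Finset.mem_singleton] at hx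
        rcases hx with rfl | rfl | rfl | rfl
        · exact hmem a ha
        · exact hmem b hb
        · exact hmem c hc
        · exact hmem d hd
      · rw [Finset.card_insert_of_notMem, Finset.card_insert_of_notMem,
          Finset.card_insert_of_notMem, Finset.card_singleton]
        · simp [hinj c hc d hd hcd]
        · simp [hinj b hb c hc hbc, hinj b hb d hd hbd]
        · simp [hinj a ha b hb hab, hinj a ha c hc hac, hinj a ha d hd had]
  exact no_cfg hp.cfg

end Pool.Agent.Lib.MP_75c8a4_co.Seven
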